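import Mathlib

/-!
# Laurent series of holomorphic functions on annuli

* `exists_laurent`: a holomorphic function on `ρ₁ < |t| < ρ₂` is the sum of its Laurent series,
  absolutely convergent in the weighted `ℓ¹` norm of each closed subannulus;
* `laurent_unique`: the coefficients are determined by the values on one circle.
-/

namespace Pool.Agent.Lib_MP_1858fb_m

open Set Metric Filter Topology Complex MeasureTheory
open scoped Real

/-- The open annulus. -/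
def Ann (ρ₁ ρ₂ : ℝ) : Set ℂ := {t | ρ₁ < ‖t‖ ∧ ‖t‖ < ρ₂}

theorem isOpen_Ann (ρ₁ ρ₂ : ℝ) : IsOpen (Ann ρ₁ ρ₂) :=
  (isOpen_lt continuous_const continuous_norm).inter (isOpen_lt continuous_norm continuous_const)

/-- The Laurent coefficient computed on the circle of radius `r`. -/
noncomputable def lc (f : ℂ → ℂ) (r : ℝ) (k : ℤ) : ℂ :=
  (2 * π : ℂ)⁻¹ * ∫ x in (0 : ℝ)..2 * π, (circleMap 0 r x) ^ (-k) * f (circleMap 0 r x)

theorem circleIntegral_inv_smul {r : ℝ} (hr : 0 < r) (h : ℂ → ℂ) :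
    (∮ z in C(0, r), (z - 0)⁻¹ • h z) = I * ∫ x in (0 : ℝ)..2 * π, h (circleMap 0 r x) := by
  rw [circleIntegral, ← intervalIntegral.integral_const_mul]
  refine intervalIntegral.integral_congr fun x _ => ?_
  have h0 : circleMap 0 r x ≠ 0 := circleMap_ne_center hr.ne'
  simp only [deriv_circleMap, sub_zero, smul_eq_mul]
  field_simp

theorem lc_eq {ρ₁ ρ₂ : ℝ} (hρ : 0 ≤ ρ₁) {f : ℂ → ℂ} (hf : DifferentiableOn ℂ f (Ann ρ₁ ρ₂))
    {r R : ℝ} (hr : ρ₁ < r) (hrR : r ≤ R) (hR : R < ρ₂) (k : ℤ) : lc f R k = lc f r k := by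
  have hr0 : 0 < r := hρ.trans_lt hr
  have key := Complex.circleIntegral_sub_center_inv_smul_eq_of_differentiable_on_annulus_off_countable
    (c := 0) hr0 hrR (f := fun z => z ^ (-k) * f z) (s := ∅) countable_empty ?_ ?_
  · rw [circleIntegral_inv_smul hr0, circleIntegral_inv_smul (hr0.trans_le hrR)] at key
    unfold lc
    rw [mul_left_cancel₀ I_ne_zero key]
  · intro z hz
    have h1 : ‖z‖ ≤ R := mem_closedBall_zero_iff.1 hz.1
    have h2 : r ≤ ‖z‖ := by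
      have := hz.2
      rw [mem_ball_zero_iff, not_lt] at this
      exact this
    have h3 : z ∈ Ann ρ₁ ρ₂ := ⟨hr.trans_le h2, h1.trans_lt hR⟩
    have h4 : z ≠ 0 := by
      intro h
      rw [h, norm_zero] at h2
      linarith
    exact ((continuousAt_zpow₀ z (-k) (Or.inl h4)).mul
      (hf.differentiableAt ((isOpen_Ann ρ₁ ρ₂).mem_nhds h3)).continuousAt).continuousWithinAt
  · intro z hz
    have h1 : ‖z‖ < R := mem_ball_zero_iff.1 hz.1.1
    have h2 : r < ‖z‖ := by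
      have := hz.1.2
      rw [mem_closedBall_zero_iff, not_le] at this
      exact this
    have h3 : z ∈ Ann ρ₁ ρ₂ := ⟨hr.trans h2, h1.trans hR⟩
    have h4 : z ≠ 0 := by
      intro h
      rw [h, norm_zero] at h2
      linarith
    exact (differentiableAt_zpow.2 (Or.inl h4)).mul
      (hf.differentiableAt ((isOpen_Ann ρ₁ ρ₂).mem_nhds h3))

theorem lc_indep {ρ₁ ρ₂ : ℝ} (hρ : 0 ≤ ρ₁) {f : ℂ → ℂ} (hf : DifferentiableOn ℂ f (Ann ρ₁ ρ₂))
    {r R : ℝ} (hr : ρ₁ < r) (hr2 : r < ρ₂) (hR1 : ρ₁ < R) (hR : R < ρ₂) (k : ℤ) :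
    lc f R k = lc f r k := by
  rcases le_total r R with h | h
  · exact lc_eq hρ hf hr h hR k
  · exact (lc_eq hρ hf hR1 h hr2 k).symm

/-- The Cauchy estimate. -/
theorem exists_bound {ρ₁ ρ₂ : ℝ} (hρ : 0 ≤ ρ₁) {f : ℂ → ℂ}
    (hf : DifferentiableOn ℂ f (Ann ρ₁ ρ₂)) {s : ℝ} (hs1 : ρ₁ < s) (hs2 : s < ρ₂) :
    ∃ M : ℝ, 0 ≤ M ∧ ∀ k : ℤ, ‖lc f s k‖ ≤ M * s ^ (-k) := by
  have hs0 : 0 < s := hρ.trans_lt hs1
  have hc : ContinuousOn f (sphere 0 s) := by
    refine hf.continuousOn.mono fun z hz => ?_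
    rw [mem_sphere_zero_iff_norm] at hz
    exact ⟨by rw [hz]; exact hs1, by rw [hz]; exact hs2⟩
  obtain ⟨M, hM⟩ := (isCompact_sphere (0 : ℂ) s).bddAbove_image hc.norm
  have hM' : ∀ x : ℝ, ‖f (circleMap 0 s x)‖ ≤ M := fun x =>
    hM ⟨_, circleMap_mem_sphere 0 hs0.le x, rfl⟩
  have hM0 : 0 ≤ M := (norm_nonneg _).trans (hM' 0)
  refine ⟨M, hM0, fun k => ?_⟩
  have h1 : ‖∫ x in (0 : ℝ)..2 * π, (circleMap 0 s x) ^ (-k) * f (circleMap 0 s x)‖ ≤
      (s ^ (-k) * M) * |2 * π - 0| := by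
    refine intervalIntegral.norm_integral_le_of_norm_le_const fun x _ => ?_
    rw [norm_mul, norm_zpow, norm_circleMap_zero, abs_of_pos hs0]
    exact mul_le_mul_of_nonneg_left (hM' x) (zpow_nonneg hs0.le _)
  unfold lc
  rw [norm_mul, norm_inv]
  have h2 : ‖(2 * π : ℂ)‖ = 2 * π := by
    rw [norm_mul, Complex.norm_real, Real.norm_of_nonneg Real.pi_pos.le]
    norm_num
  rw [h2]
  have h3 : |2 * π - 0| = 2 * π := by rw [sub_zero, abs_of_pos (by positivity)]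
  rw [h3] at h1
  calc (2 * π)⁻¹ * ‖∫ x in (0 : ℝ)..2 * π, (circleMap 0 s x) ^ (-k) * f (circleMap 0 s x)‖
      ≤ (2 * π)⁻¹ * ((s ^ (-k) * M) * (2 * π)) := by gcongr
    _ = M * s ^ (-k) := by
      have : (2 * π) ≠ 0 := by positivity
      field_simp

/-- Absolute summability. -/
theorem summable_lc {ρ₁ ρ₂ : ℝ} (hρ : 0 ≤ ρ₁) {f : ℂ → ℂ}
    (hf : DifferentiableOn ℂ f (Ann ρ₁ ρ₂)) {r₀ : ℝ} (h01 : ρ₁ < r₀) (h02 : r₀ < ρ₂) {r : ℝ}
    (hr1 : ρ₁ < r) (hr2 : r < ρ₂) : Summable fun k : ℤ => ‖lc f r₀ k‖ * r ^ k := by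
  have hr0 : 0 < r := hρ.trans_lt hr1
  obtain ⟨s, hs1, hs2⟩ := exists_between hr1
  obtain ⟨u, hu1, hu2⟩ := exists_between hr2
  have hs0 : 0 < s := hρ.trans_lt hs1
  have hu0 : 0 < u := hr0.trans hu1
  obtain ⟨M, hM0, hM⟩ := exists_bound hρ hf hs1 (hs2.trans hr2)
  obtain ⟨M', hM'0, hM'⟩ := exists_bound hρ hf (hr1.trans hu1) hu2
  have e1 : ∀ k, lc f r₀ k = lc f s k := fun k => lc_indep hρ hf hs1 (hs2.trans hr2) h01 h02 k
  have e2 : ∀ k, lc f r₀ k = lc f u k := fun k => lc_indep hρ hf (hr1.trans hu1) hu2 h01 h02 k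
  refine Summable.of_nat_of_neg ?_ ?_
  · have hq : r / u < 1 := (div_lt_one hu0).2 hu1
    refine Summable.of_nonneg_of_le (fun n => by positivity) (fun n => ?_)
      ((summable_geometric_of_lt_one (by positivity) hq).mul_left M')
    rw [e2]
    calc ‖lc f u n‖ * r ^ (n : ℤ) ≤ (M' * u ^ (-(n : ℤ))) * r ^ (n : ℤ) := by
          gcongr
          exact hM' n
      _ = M' * (r / u) ^ n := by
          rw [zpow_neg, zpow_natCast, zpow_natCast, div_pow]
          ring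
  · have hq : s / r < 1 := (div_lt_one hr0).2 hs2
    refine Summable.of_nonneg_of_le (fun n => by positivity) (fun n => ?_)
      ((summable_geometric_of_lt_one (by positivity) hq).mul_left M)
    rw [e1]
    calc ‖lc f s (-(n : ℤ))‖ * r ^ (-(n : ℤ)) ≤ (M * s ^ (-(-(n : ℤ)))) * r ^ (-(n : ℤ)) := by
          gcongr
          exact hM _
      _ = M * (s / r) ^ n := by
          rw [neg_neg, zpow_neg, zpow_natCast, zpow_natCast, div_pow]
          ring

instance fact_two_pi : Fact (0 < 2 * π) := ⟨Real.two_pi_pos⟩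

/-- The function on the circle. -/
noncomputable def circ {ρ₁ ρ₂ : ℝ} {f : ℂ → ℂ}
    (hf : DifferentiableOn ℂ f (Ann ρ₁ ρ₂)) {r : ℝ} (hr0 : 0 < r)
    (hr1 : ρ₁ < r) (hr2 : r < ρ₂) : C(AddCircle (2 * π), ℂ) where
  toFun x := f (r * (AddCircle.toCircle x : ℂ))
  continuous_toFun := by
    have h1 : Continuous fun x : AddCircle (2 * π) => (r : ℂ) * (AddCircle.toCircle x : ℂ) :=
      continuous_const.mul (continuous_subtype_val.comp AddCircle.continuous_toCircle)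
    refine hf.continuousOn.comp_continuous h1 fun x => ?_
    have h2 : ‖(r : ℂ) * (AddCircle.toCircle x : ℂ)‖ = r := by
      rw [norm_mul, Circle.norm_coe, mul_one, Complex.norm_real, Real.norm_of_nonneg hr0.le]
    exact ⟨by rw [h2]; exact hr1, by rw [h2]; exact hr2⟩

theorem coe_toCircle (x : ℝ) :
    ((AddCircle.toCircle (x : AddCircle (2 * π)) : Circle) : ℂ) = exp (x * I) := by
  rw [AddCircle.toCircle_apply_mk, div_self (by positivity : (2 * π) ≠ 0), one_mul,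
    Circle.coe_exp]

theorem fourierCoeff_circ {ρ₁ ρ₂ : ℝ} {f : ℂ → ℂ}
    (hf : DifferentiableOn ℂ f (Ann ρ₁ ρ₂)) {r : ℝ} (hr0 : 0 < r)
    (hr1 : ρ₁ < r) (hr2 : r < ρ₂) (k : ℤ) :
    fourierCoeff (circ hf hr0 hr1 hr2) k = lc f r k * (r : ℂ) ^ k := by
  have hr0' : (r : ℂ) ≠ 0 := by exact_mod_cast hr0.ne'
  rw [fourierCoeff_eq_intervalIntegral _ k 0, zero_add]
  unfold lc
  rw [mul_assoc, mul_comm (∫ x in (0 : ℝ)..2 * π, _) ((r : ℂ) ^ k),
    ← intervalIntegral.integral_const_mul]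
  have h1 : ∀ x : ℝ, (fourier (-k) (x : AddCircle (2 * π)) : ℂ) • circ hf hr0 hr1 hr2 x =
      (r : ℂ) ^ k * ((circleMap 0 r x) ^ (-k) * f (circleMap 0 r x)) := by
    intro x
    have h2 : circ hf hr0 hr1 hr2 (x : AddCircle (2 * π)) = f (circleMap 0 r x) := by
      show f (r * (AddCircle.toCircle (x : AddCircle (2 * π)) : ℂ)) = _
      rw [coe_toCircle, circleMap_zero]
    have h3 : (fourier (-k) (x : AddCircle (2 * π)) : ℂ) = (exp (x * I)) ^ (-k) := by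
      rw [fourier_coe_apply, ← Complex.exp_int_mul]
      congr 1
      have : (π : ℂ) ≠ 0 := by exact_mod_cast Real.pi_ne_zero
      push_cast
      field_simp
    rw [h2, h3, circleMap_zero, mul_zpow, zpow_neg (r : ℂ), smul_eq_mul]
    have : (r : ℂ) ^ k ≠ 0 := zpow_ne_zero _ hr0'
    field_simp
  simp_rw [h1]
  rw [Complex.real_smul]
  push_cast
  rw [one_div]

theorem hasSum_lc {ρ₁ ρ₂ : ℝ} (hρ : 0 ≤ ρ₁) {f : ℂ → ℂ}
    (hf : DifferentiableOn ℂ f (Ann ρ₁ ρ₂)) {r₀ : ℝ} (h01 : ρ₁ < r₀) (h02 : r₀ < ρ₂) {t : ℂ}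
    (ht : t ∈ Ann ρ₁ ρ₂) : HasSum (fun k : ℤ => lc f r₀ k * t ^ k) (f t) := by
  obtain ⟨ht1, ht2⟩ := ht
  have ht0 : 0 < ‖t‖ := hρ.trans_lt ht1
  have e1 : ∀ k, lc f r₀ k = lc f ‖t‖ k := fun k => lc_indep hρ hf ht1 ht2 h01 h02 k
  have hs : Summable (fourierCoeff (circ hf ht0 ht1 ht2)) := by
    refine Summable.of_norm ?_
    have := summable_lc hρ hf h01 h02 ht1 ht2
    refine this.congr fun k => ?_
    rw [fourierCoeff_circ, norm_mul, norm_zpow, Complex.norm_real, norm_norm, e1]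
  have h1 := has_pointwise_sum_fourier_series_of_summable hs ((arg t : ℝ) : AddCircle (2 * π))
  have h2 : circ hf ht0 ht1 ht2 ((arg t : ℝ) : AddCircle (2 * π)) = f t := by
    show f (‖t‖ * (AddCircle.toCircle ((arg t : ℝ) : AddCircle (2 * π)) : ℂ)) = _
    rw [coe_toCircle, norm_mul_exp_arg_mul_I]
  rw [h2] at h1
  convert h1 using 2 with k
  rw [fourierCoeff_circ, fourier_coe_apply, smul_eq_mul, mul_assoc, e1]
  congr 1
  conv_lhs => rw [← norm_mul_exp_arg_mul_I t]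
  rw [mul_zpow, ← Complex.exp_int_mul]
  congr 2
  have : (π : ℂ) ≠ 0 := by exact_mod_cast Real.pi_ne_zero
  push_cast
  field_simp

/-- **Laurent expansion.** -/
theorem exists_laurent {ρ₁ ρ₂ : ℝ} (hρ : 0 ≤ ρ₁) (hρ2 : ρ₁ < ρ₂) {f : ℂ → ℂ}
    (hf : DifferentiableOn ℂ f (Ann ρ₁ ρ₂)) :
    ∃ a : ℤ → ℂ, (∀ r₁ r₂ : ℝ, ρ₁ < r₁ → r₁ ≤ r₂ → r₂ < ρ₂ →
      Summable fun k : ℤ => ‖a k‖ * max (r₁ ^ k) (r₂ ^ k)) ∧
      ∀ t ∈ Ann ρ₁ ρ₂, HasSum (fun k : ℤ => a k * t ^ k) (f t) := by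
  obtain ⟨r₀, h01, h02⟩ := exists_between hρ2
  refine ⟨lc f r₀, fun r₁ r₂ h1 h2 h3 => ?_, fun t ht => hasSum_lc hρ hf h01 h02 ht⟩
  have s1 := summable_lc hρ hf h01 h02 h1 (h2.trans_lt h3)
  have s2 := summable_lc hρ hf h01 h02 (h1.trans_le h2) h3
  have hr1 : 0 < r₁ := hρ.trans_lt h1
  have hr2 : 0 < r₂ := hr1.trans_le h2
  refine Summable.of_nonneg_of_le (fun k => by positivity) (fun k => ?_) (s1.add s2)
  rw [← mul_add]
  refine mul_le_mul_of_nonneg_left ?_ (norm_nonneg _)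
  exact max_le (le_add_of_nonneg_right (by positivity)) (le_add_of_nonneg_left (by positivity))

theorem integral_circleMap_zpow {r : ℝ} (hr : 0 < r) {m : ℤ} (hm : m ≠ 0) :
    ∫ x in (0 : ℝ)..2 * π, (circleMap 0 r x) ^ m = 0 := by
  have h1 := circleIntegral.integral_sub_zpow_of_ne (n := m - 1) (by omega) 0 0 r
  have h2 := circleIntegral_inv_smul hr (fun z => z ^ m)
  have h3 : (∮ z in C(0, r), (z - 0)⁻¹ • z ^ m) = ∮ z in C(0, r), (z - 0) ^ (m - 1) := by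
    refine circleIntegral.integral_congr hr.le fun z hz => ?_
    have h0 : z ≠ 0 := by
      intro h
      rw [h, mem_sphere_zero_iff_norm, norm_zero] at hz
      linarith
    simp only [sub_zero, smul_eq_mul]
    rw [zpow_sub_one₀ h0, mul_comm]
  rw [h3, h1] at h2
  rcases mul_eq_zero.1 h2.symm with h | h
  · exact absurd h I_ne_zero
  · exact h

/-- **Uniqueness of Laurent coefficients.** -/
theorem laurent_unique {r : ℝ} (hr : 0 < r) {b : ℤ → ℂ} (hs : Summable fun k : ℤ => ‖b k‖ * r ^ k)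
    (h0 : ∀ t : ℂ, ‖t‖ = r → ∑' k : ℤ, b k * t ^ k = 0) (n : ℤ) : b n = 0 := by
  have hne : ∀ x : ℝ, circleMap 0 r x ≠ 0 := fun x => circleMap_ne_center hr.ne'
  have hcont : ∀ m : ℤ, Continuous fun x : ℝ => (circleMap 0 r x) ^ m := fun m =>
    continuous_iff_continuousAt.2 fun x =>
      ContinuousAt.zpow₀ (continuous_circleMap 0 r).continuousAt m (Or.inl (hne x))
  let F : ℤ → C(ℝ, ℂ) := fun k =>
    ⟨fun x => b k * (circleMap 0 r x) ^ (k - n), continuous_const.mul (hcont _)⟩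
  have hF : ∀ k x, ‖F k x‖ = ‖b k‖ * r ^ (k - n) := by
    intro k x
    show ‖b k * (circleMap 0 r x) ^ (k - n)‖ = _
    rw [norm_mul, norm_zpow, norm_circleMap_zero, abs_of_pos hr]
  have h1 : Summable fun k : ℤ =>
      ‖(F k).restrict (⟨uIcc 0 (2 * π), isCompact_uIcc⟩ : TopologicalSpace.Compacts ℝ)‖ := by
    refine Summable.of_nonneg_of_le (fun k => norm_nonneg _) (fun k => ?_)
      (hs.mul_right (r ^ (-n)))
    rw [ContinuousMap.norm_le _ (by positivity)]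
    intro x
    have : ‖(F k).restrict (⟨uIcc 0 (2 * π), isCompact_uIcc⟩ : TopologicalSpace.Compacts ℝ) x‖ =
        ‖b k‖ * r ^ (k - n) := hF k x
    rw [this, zpow_sub₀ hr.ne', zpow_neg]
    apply le_of_eq
    ring
  have h2 := intervalIntegral.hasSum_intervalIntegral_of_summable_norm h1
  have h3 : ∀ x : ℝ, ∑' k : ℤ, F k x = 0 := by
    intro x
    have e1 : ∀ k : ℤ, F k x = (b k * (circleMap 0 r x) ^ k) * (circleMap 0 r x) ^ (-n) := by
      intro k
      show b k * (circleMap 0 r x) ^ (k - n) = _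
      rw [mul_assoc, ← zpow_add₀ (hne x), sub_eq_add_neg]
    simp_rw [e1]
    rw [tsum_mul_right, h0 _ (by rw [norm_circleMap_zero, abs_of_pos hr]), zero_mul]
  simp_rw [h3] at h2
  rw [intervalIntegral.integral_zero] at h2
  have h4 : ∀ k : ℤ, (∫ x in (0 : ℝ)..2 * π, F k x) = if k = n then 2 * π * b n else 0 := by
    intro k
    show (∫ x in (0 : ℝ)..2 * π, b k * (circleMap 0 r x) ^ (k - n)) = _
    rw [intervalIntegral.integral_const_mul]
    split_ifs with hk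
    · subst hk
      simp
      ring
    · rw [integral_circleMap_zpow hr (sub_ne_zero.2 hk), mul_zero]
  simp_rw [h4] at h2
  have h5 := h2.unique (hasSum_ite_eq n (2 * π * b n))
  have h6 : (2 * π : ℂ) ≠ 0 := by
    have : (π : ℂ) ≠ 0 := by exact_mod_cast Real.pi_ne_zero
    simp [this]
  rcases mul_eq_zero.1 h5.symm with h | h
  · exact absurd h h6
  · exact h

end Pool.Agent.Lib_MP_1858fb_m
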