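import Pool.Agent.Lib_MP_1858fb_m.Laur
import Pool.Agent.Lib_MP_1858fb_w.Wiener

/-!
# Holomorphic functions as elements of the Wiener algebras

* `ext_val`: the values on one circle determine an element;
* `exists_of_ann`: a holomorphic function on a larger open annulus;
* `exists_of_disc`: a holomorphic function on a larger disc (exponents `≥ 0`);
* `isUnit_of_ne_zero`: without zeros on a larger annulus it is a unit.
-/

namespace Pool.Agent.Lib_MP_1858fb_m

open Set Metric Filter Topology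
open Pool.Agent.Lib_MP_1858fb_w

variable {ω : Wt}

/-- The values on one circle determine an element of the algebra. -/
theorem ext_val {r : ℝ} (hr : 0 < r) (hω : ∀ k : ℤ, r ^ k ≤ ω.w k) {F G : W ω}
    (h : ∀ t : ℂ, ‖t‖ = r → W.val t F = W.val t G) : F = G := by
  have hb : ∀ t : ℂ, ‖t‖ = r → ∀ i ∈ (Set.univ : Set ℤ), ‖t ^ i‖ ≤ ω.w i := by
    intro t ht i _
    rw [norm_zpow, ht]
    exact hω i
  refine W.ext fun n => ?_
  have h1 : (F - G).co n = 0 := by
    refine laurent_unique hr ?_ (fun t ht => ?_) n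
    · refine Summable.of_nonneg_of_le (fun k => by positivity) (fun k => ?_) (W.summ (F - G))
      exact mul_le_mul_of_nonneg_left (hω k) (norm_nonneg _)
    · have e1 : W.val t ((F - G) + G) = W.val t (F - G) + W.val t G :=
        W.val_add (S := Set.univ) (hb t ht) (W.supp_univ _) (W.supp_univ _)
      rw [sub_add_cancel, h t ht] at e1
      have e2 : W.val t (F - G) = 0 := by linear_combination -e1
      exact e2
  rw [W.co_sub] at h1
  exact sub_eq_zero.1 h1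

/-- A holomorphic function on a larger annulus as an element of the algebra. -/
theorem exists_of_ann {ρ₁ ρ₂ : ℝ} (hρ : 0 ≤ ρ₁) {f : ℂ → ℂ}
    (hf : DifferentiableOn ℂ f (Ann ρ₁ ρ₂)) {r₁ r₂ : ℝ} (h1 : ρ₁ < r₁) (h12 : r₁ ≤ r₂)
    (h2 : r₂ < ρ₂) (hω : ∀ k : ℤ, ω.w k ≤ max (r₁ ^ k) (r₂ ^ k)) :
    ∃ F : W ω, ∀ t ∈ Ann ρ₁ ρ₂, HasSum (fun k : ℤ => F.co k * t ^ k) (f t) ∧ W.val t F = f t := by
  obtain ⟨a, ha, hs⟩ := exists_laurent hρ (h1.trans_le h12 |>.trans h2) hf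
  have hsum : Summable fun k : ℤ => ‖a k‖ * ω.w k :=
    Summable.of_nonneg_of_le (fun k => mul_nonneg (norm_nonneg _) (ω.pos k).le)
      (fun k => mul_le_mul_of_nonneg_left (hω k) (norm_nonneg _)) (ha r₁ r₂ h1 h12 h2)
  refine ⟨W.ofSeq a hsum, fun t ht => ?_⟩
  have h3 : HasSum (fun k : ℤ => (W.ofSeq a hsum : W ω).co k * t ^ k) (f t) := by
    simpa only [W.co_ofSeq] using hs t ht
  exact ⟨h3, h3.tsum_eq⟩

/-- Without zeros on a larger annulus it is a unit of the algebra. -/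
theorem isUnit_of_ne_zero {ρ₁ ρ₂ : ℝ} (hρ : 0 ≤ ρ₁) {f : ℂ → ℂ}
    (hf : DifferentiableOn ℂ f (Ann ρ₁ ρ₂)) (hf0 : ∀ t ∈ Ann ρ₁ ρ₂, f t ≠ 0) {r₁ r₂ : ℝ}
    (h1 : ρ₁ < r₁) (h12 : r₁ ≤ r₂) (h2 : r₂ < ρ₂)
    (hω : ∀ k : ℤ, ω.w k ≤ max (r₁ ^ k) (r₂ ^ k)) (hω1 : ∀ k : ℤ, r₁ ^ k ≤ ω.w k) {F : W ω}
    (hF : ∀ t : ℂ, ‖t‖ = r₁ → W.val t F = f t) : IsUnit F := by
  obtain ⟨G, hG⟩ := exists_of_ann (ω := ω) hρ (f := fun t => (f t)⁻¹) (hf.inv hf0) h1 h12 h2 hω
  have hr1 : 0 < r₁ := hρ.trans_lt h1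
  have h3 : F * G = 1 := by
    refine ext_val hr1 hω1 fun t ht => ?_
    have ht0 : t ≠ 0 := by
      intro h
      rw [h, norm_zero] at ht
      linarith
    have hb : ∀ k : ℤ, ‖t ^ k‖ ≤ ω.w k := fun k => by
      rw [norm_zpow, ht]
      exact hω1 k
    have htA : t ∈ Ann ρ₁ ρ₂ := ⟨by rw [ht]; exact h1, by rw [ht]; exact h12.trans_lt h2⟩
    have e1 : W.val t (F * G) = W.val t F * W.val t G := map_mul (W.ev t ht0 hb) F G
    rw [e1, hF t ht, (hG t htA).2, W.val_one, mul_inv_cancel₀ (hf0 t htA)]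
  exact IsUnit.of_mul_eq_one _ h3

/-- A holomorphic function on a larger disc as an element with exponents `≥ 0`. -/
theorem exists_of_disc {ρ : ℝ} {f : ℂ → ℂ} (hf : DifferentiableOn ℂ f (ball 0 ρ)) {r : ℝ}
    (hr : 0 < r) (hrρ : r < ρ) (hω : ∀ k : ℤ, 0 ≤ k → ω.w k ≤ r ^ k) :
    ∃ F : W ω, W.Supp (Set.Ici 0) F ∧ F.co 0 = f 0 ∧
      ∀ t : ℂ, ‖t‖ ≤ r → HasSum (fun k : ℤ => F.co k * t ^ k) (f t) ∧ W.val t F = f t := by
  obtain ⟨R, hR1, hR2⟩ := exists_between hrρ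
  have hR0 : 0 < R := hr.trans hR1
  lift R to NNReal using hR0.le
  have hR0' : 0 < R := by exact_mod_cast hR0
  have hp := DifferentiableOn.hasFPowerSeriesOnBall (c := 0) (R := R)
    (hf.mono (closedBall_subset_ball hR2)) hR0'
  set p := cauchyPowerSeries f 0 R with hpdef
  have hsum0 : Summable fun n : ℕ => ‖p n‖ * r ^ n := by
    obtain ⟨q, hq⟩ : ∃ q : NNReal, (q : ℝ) = r := ⟨⟨r, hr.le⟩, rfl⟩
    have hrr : q < R := by
      rw [← NNReal.coe_lt_coe, hq]
      exact hR1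
    have h1 : (q : ENNReal) < p.radius :=
      lt_of_lt_of_le (ENNReal.coe_lt_coe.2 hrr) hp.r_le
    rw [← hq]
    exact p.summable_norm_mul_pow h1
  have hcoef : ∀ n, ‖p.coeff n‖ ≤ ‖p n‖ := fun n => by
    rw [FormalMultilinearSeries.norm_apply_eq_norm_coef]
  let a : ℤ → ℂ := fun k => if 0 ≤ k then p.coeff k.toNat else 0
  have ha : ∀ n : ℕ, a n = p.coeff n := fun n => by simp [a]
  have ha' : ∀ k : ℤ, k < 0 → a k = 0 := fun k hk => by
    simp only [a, if_neg (not_le.2 hk)]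
  have hinj : Function.Injective (fun n : ℕ => (n : ℤ)) := Nat.cast_injective
  have hzero : ∀ k : ℤ, k ∉ Set.range (fun n : ℕ => (n : ℤ)) → a k = 0 := by
    intro k hk
    refine ha' k ?_
    by_contra hcon
    exact hk ⟨k.toNat, by simp; omega⟩
  have hsum : Summable fun k : ℤ => ‖a k‖ * ω.w k := by
    rw [← hinj.summable_iff (fun k hk => by rw [hzero k hk]; simp)]
    refine Summable.of_nonneg_of_le (fun n => mul_nonneg (norm_nonneg _) (ω.pos _).le)
      (fun n => ?_) hsum0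
    show ‖a n‖ * ω.w n ≤ _
    rw [ha]
    refine mul_le_mul (hcoef n) ?_ (ω.pos _).le (norm_nonneg _)
    have := hω n (by positivity)
    rwa [zpow_natCast] at this
  have hval : ∀ t : ℂ, ‖t‖ ≤ r → HasSum (fun k : ℤ => a k * t ^ k) (f t) := by
    intro t ht
    rw [← hinj.hasSum_iff (fun k hk => by rw [hzero k hk, zero_mul])]
    have h1 : t ∈ Metric.eball (0 : ℂ) R := by
      rw [Metric.eball_coe, mem_ball_zero_iff]
      exact ht.trans_lt hR1
    have h2 := hp.hasSum h1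
    rw [zero_add] at h2
    have h4 : ((fun k : ℤ => a k * t ^ k) ∘ fun n : ℕ => (n : ℤ)) =
        fun n : ℕ => (p n) fun _ => t := by
      ext n
      show a n * t ^ (n : ℤ) = _
      rw [ha, zpow_natCast, FormalMultilinearSeries.apply_eq_pow_smul_coeff, smul_eq_mul, mul_comm]
    rw [h4]
    exact h2
  refine ⟨W.ofSeq a hsum, ?_, ?_, fun t ht => ?_⟩
  · intro k hk
    rw [W.co_ofSeq]
    exact ha' k (not_le.1 hk)
  · rw [W.co_ofSeq]
    have h1 := hval 0 (by simpa using hr.le)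
    have h2 : HasSum (fun k : ℤ => a k * (0 : ℂ) ^ k) (a 0) := by
      have := hasSum_single (f := fun k : ℤ => a k * (0 : ℂ) ^ k) 0 (fun k hk => by
        rw [zero_zpow _ hk, mul_zero])
      simpa using this
    exact h2.unique h1
  · have h3 : HasSum (fun k : ℤ => (W.ofSeq a hsum : W ω).co k * t ^ k) (f t) := by
      simpa only [W.co_ofSeq] using hval t ht
    exact ⟨h3, h3.tsum_eq⟩

end Pool.Agent.Lib_MP_1858fb_m
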