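import Mathlib

/-!
# Holomorphic simple roots of a polynomial with holomorphic coefficients

* `exists_root_convex`: on a convex open set;
* `exists_root_annulus`: on an annulus, after the substitution `t = τ ^ e`.
-/

namespace Pool.Agent.Lib_MP_1858fb_m

open Set Metric Polynomial Filter Topology

section Convex

variable {S : Set ℂ} {P : ℂ → ℂ[X]} {d : ℕ}

/-- The hypotheses on the family of polynomials over the set `S`. -/
structure SimpleFamily (S : Set ℂ) (P : ℂ → ℂ[X]) (d : ℕ) : Prop where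
  isOpen : IsOpen S
  coef : ∀ j, DifferentiableOn ℂ (fun z => (P z).coeff j) S
  deg : ∀ z ∈ S, (P z).natDegree = d
  ne : ∀ z ∈ S, P z ≠ 0
  simple : ∀ z ∈ S, ∀ θ, (P z).eval θ = 0 → (P z).derivative.eval θ ≠ 0

/-- The explicit expression of the value. -/
noncomputable def val (P : ℂ → ℂ[X]) (d : ℕ) (p : ℂ × ℂ) : ℂ :=
  ∑ j ∈ Finset.range (d + 1), (P p.1).coeff j * p.2 ^ j

theorem SimpleFamily.val_eq (h : SimpleFamily S P d) {z : ℂ} (hz : z ∈ S) (θ : ℂ) :
    val P d (z, θ) = (P z).eval θ := by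
  rw [eval_eq_sum_range' (n := d + 1) (by rw [h.deg z hz]; omega)]
  rfl

theorem SimpleFamily.contDiffAt_val (h : SimpleFamily S P d) {z : ℂ} (hz : z ∈ S) (θ : ℂ) :
    ContDiffAt ℂ 1 (val P d) (z, θ) := by
  unfold val
  refine ContDiffAt.sum fun j _ => ?_
  refine ContDiffAt.mul ?_ ?_
  · have h1 : ContDiffAt ℂ 1 (fun w => (P w).coeff j) z :=
      ((h.coef j).analyticAt (h.isOpen.mem_nhds hz)).contDiffAt
    exact ContDiffAt.comp (z, θ) (f := fun p : ℂ × ℂ => p.1) h1 contDiffAt_fst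
  · exact contDiffAt_snd.pow j

theorem SimpleFamily.fderiv_val_snd (h : SimpleFamily S P d) {z : ℂ} (hz : z ∈ S) (θ : ℂ) :
    fderiv ℂ (val P d) (z, θ) (0, 1) = (P z).derivative.eval θ := by
  have h1 : HasFDerivAt (val P d) (fderiv ℂ (val P d) (z, θ)) (z, θ) :=
    ((h.contDiffAt_val hz θ).differentiableAt (by norm_num)).hasFDerivAt
  have h2 : HasDerivAt (fun s : ℂ => ((z, s) : ℂ × ℂ)) (0, 1) θ :=
    (hasDerivAt_const θ z).prodMk (hasDerivAt_id θ)
  have h3 : HasDerivAt (fun s : ℂ => val P d (z, s)) (fderiv ℂ (val P d) (z, θ) (0, 1)) θ :=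
    h1.comp_hasDerivAt θ h2
  have h4 : (fun s : ℂ => val P d (z, s)) = fun s => (P z).eval s := by
    ext s
    exact h.val_eq hz s
  rw [h4] at h3
  exact h3.unique ((P z).hasDerivAt θ)

/-- The map `(z, θ) ↦ (z, P z θ)`. -/
noncomputable def Phi (P : ℂ → ℂ[X]) (d : ℕ) (p : ℂ × ℂ) : ℂ × ℂ := (p.1, val P d p)

/-- Its derivative. -/
noncomputable def PhiD (P : ℂ → ℂ[X]) (d : ℕ) (p : ℂ × ℂ) : ℂ × ℂ →L[ℂ] ℂ × ℂ :=
  (ContinuousLinearMap.fst ℂ ℂ ℂ).prod (fderiv ℂ (val P d) p)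

theorem SimpleFamily.injective_PhiD (h : SimpleFamily S P d) {z : ℂ} (hz : z ∈ S) {θ : ℂ}
    (hθ : (P z).eval θ = 0) : Function.Injective (PhiD P d (z, θ)) := by
  rw [injective_iff_map_eq_zero]
  rintro ⟨a, b⟩ hab
  have h1 : a = 0 := congrArg Prod.fst hab
  subst h1
  have h2 : fderiv ℂ (val P d) (z, θ) (0, b) = 0 := congrArg Prod.snd hab
  have h3 : ((0 : ℂ), b) = b • ((0 : ℂ), (1 : ℂ)) := by simp
  rw [h3, map_smul, h.fderiv_val_snd hz, smul_eq_mul] at h2
  rcases mul_eq_zero.1 h2 with h4 | h4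
  · rw [h4]; rfl
  · exact absurd h4 (h.simple z hz θ hθ)

/-- The derivative as an equivalence. -/
noncomputable def PhiE (h : SimpleFamily S P d) {z : ℂ} (hz : z ∈ S) {θ : ℂ}
    (hθ : (P z).eval θ = 0) : (ℂ × ℂ) ≃L[ℂ] (ℂ × ℂ) :=
  (LinearEquiv.ofInjectiveEndo (PhiD P d (z, θ) : ℂ × ℂ →ₗ[ℂ] ℂ × ℂ)
    (h.injective_PhiD hz hθ)).toContinuousLinearEquiv

theorem SimpleFamily.hasStrictFDerivAt_Phi (h : SimpleFamily S P d) {z : ℂ} (hz : z ∈ S) {θ : ℂ}
    (hθ : (P z).eval θ = 0) :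
    HasStrictFDerivAt (Phi P d) (PhiE h hz hθ : ℂ × ℂ →L[ℂ] ℂ × ℂ) (z, θ) := by
  have h1 : HasStrictFDerivAt (val P d) (fderiv ℂ (val P d) (z, θ)) (z, θ) :=
    (h.contDiffAt_val hz θ).hasStrictFDerivAt (by norm_num)
  have h2 : HasStrictFDerivAt (Phi P d) (PhiD P d (z, θ)) (z, θ) :=
    hasStrictFDerivAt_fst.prodMk h1
  have h3 : (PhiE h hz hθ : ℂ × ℂ →L[ℂ] ℂ × ℂ) = PhiD P d (z, θ) := by
    ext <;> rfl
  rw [h3]
  exact h2

/-- The local inverse at a root. -/
noncomputable def psi (h : SimpleFamily S P d) {z : ℂ} (hz : z ∈ S) {θ : ℂ}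
    (hθ : (P z).eval θ = 0) : OpenPartialHomeomorph (ℂ × ℂ) (ℂ × ℂ) :=
  (h.hasStrictFDerivAt_Phi hz hθ).toOpenPartialHomeomorph (Phi P d)

theorem psi_coe (h : SimpleFamily S P d) {z : ℂ} (hz : z ∈ S) {θ : ℂ}
    (hθ : (P z).eval θ = 0) : (psi h hz hθ : ℂ × ℂ → ℂ × ℂ) = Phi P d := rfl

theorem mem_psi_source (h : SimpleFamily S P d) {z : ℂ} (hz : z ∈ S) {θ : ℂ}
    (hθ : (P z).eval θ = 0) : (z, θ) ∈ (psi h hz hθ).source :=
  (h.hasStrictFDerivAt_Phi hz hθ).mem_toOpenPartialHomeomorph_source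

theorem Phi_root (h : SimpleFamily S P d) {z : ℂ} (hz : z ∈ S) {θ : ℂ}
    (hθ : (P z).eval θ = 0) : Phi P d (z, θ) = (z, 0) := by
  unfold Phi
  rw [h.val_eq hz, hθ]

/-- The local root. -/
noncomputable def loc (h : SimpleFamily S P d) {z : ℂ} (hz : z ∈ S) {θ : ℂ}
    (hθ : (P z).eval θ = 0) (w : ℂ) : ℂ := ((psi h hz hθ).symm (w, 0)).2

theorem psi_symm_root (h : SimpleFamily S P d) {z : ℂ} (hz : z ∈ S) {θ : ℂ}
    (hθ : (P z).eval θ = 0) : (psi h hz hθ).symm (z, 0) = (z, θ) := by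
  have h1 := (psi h hz hθ).left_inv (mem_psi_source h hz hθ)
  rwa [psi_coe, Phi_root h hz hθ] at h1

theorem loc_root (h : SimpleFamily S P d) {z : ℂ} (hz : z ∈ S) {θ : ℂ}
    (hθ : (P z).eval θ = 0) : loc h hz hθ z = θ := by
  unfold loc
  rw [psi_symm_root]

theorem differentiableAt_loc (h : SimpleFamily S P d) {z : ℂ} (hz : z ∈ S) {θ : ℂ}
    (hθ : (P z).eval θ = 0) : DifferentiableAt ℂ (loc h hz hθ) z := by
  have h1 : HasStrictFDerivAt (psi h hz hθ).symm
      ((PhiE h hz hθ).symm : ℂ × ℂ →L[ℂ] ℂ × ℂ) (z, 0) := by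
    have := (h.hasStrictFDerivAt_Phi hz hθ).to_localInverse
    rw [Phi_root h hz hθ] at this
    exact this
  have h2 : DifferentiableAt ℂ (fun w : ℂ => ((w, 0) : ℂ × ℂ)) z := by fun_prop
  have h3 : DifferentiableAt ℂ (fun w : ℂ => (psi h hz hθ).symm (w, 0)) z :=
    DifferentiableAt.comp z (g := (psi h hz hθ).symm) h1.hasFDerivAt.differentiableAt h2
  exact h3.snd

/-- near `z`, the point `(w, loc w)` is a root in the source. -/
theorem eventually_loc (h : SimpleFamily S P d) {z : ℂ} (hz : z ∈ S) {θ : ℂ}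
    (hθ : (P z).eval θ = 0) :
    ∀ᶠ w in 𝓝 z, w ∈ S ∧ (w, loc h hz hθ w) ∈ (psi h hz hθ).source ∧
      (P w).eval (loc h hz hθ w) = 0 := by
  have h1 : (z, (0 : ℂ)) ∈ (psi h hz hθ).target := by
    have := (psi h hz hθ).map_source (mem_psi_source h hz hθ)
    rwa [psi_coe, Phi_root h hz hθ] at this
  have h2 : ∀ᶠ w in 𝓝 z, ((w, 0) : ℂ × ℂ) ∈ (psi h hz hθ).target := by
    have hc : ContinuousAt (fun w : ℂ => ((w, 0) : ℂ × ℂ)) z := by fun_prop
    exact hc ((psi h hz hθ).open_target.mem_nhds h1)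
  filter_upwards [h2, h.isOpen.mem_nhds hz] with w hw hwS
  have h3 : Phi P d ((psi h hz hθ).symm (w, 0)) = (w, 0) := (psi h hz hθ).right_inv hw
  have h4 : ((psi h hz hθ).symm (w, 0)).1 = w := congrArg Prod.fst h3
  have h5 : (psi h hz hθ).symm (w, 0) = (w, loc h hz hθ w) := Prod.ext h4 rfl
  have h6 : val P d (w, loc h hz hθ w) = 0 := by
    rw [← h5]
    exact congrArg Prod.snd h3
  refine ⟨hwS, ?_, ?_⟩
  · rw [← h5]
    exact (psi h hz hθ).map_target hw
  · rwa [h.val_eq hwS] at h6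

/-- roots in the source are `loc`. -/
theorem eq_loc (h : SimpleFamily S P d) {z : ℂ} (hz : z ∈ S) {θ : ℂ}
    (hθ : (P z).eval θ = 0) {w η : ℂ} (hw : w ∈ S) (hη : (P w).eval η = 0)
    (hs : (w, η) ∈ (psi h hz hθ).source) : η = loc h hz hθ w := by
  have h1 := (psi h hz hθ).left_inv hs
  rw [psi_coe, Phi_root h hw hη] at h1
  unfold loc
  rw [h1]

/-- A continuous choice of roots is holomorphic. -/
theorem differentiableAt_of_continuousAt (h : SimpleFamily S P d) {θ : ℂ → ℂ} {z : ℂ} (hz : z ∈ S)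
    (hc : ContinuousAt θ z) (hr : ∀ᶠ w in 𝓝 z, (P w).eval (θ w) = 0) :
    DifferentiableAt ℂ θ z := by
  have hθ : (P z).eval (θ z) = 0 := hr.self_of_nhds
  have h1 : ∀ᶠ w in 𝓝 z, (w, θ w) ∈ (psi h hz hθ).source := by
    have hc' : ContinuousAt (fun w : ℂ => (w, θ w)) z := continuousAt_id.prodMk hc
    exact hc' ((psi h hz hθ).open_source.mem_nhds (mem_psi_source h hz hθ))
  have h2 : θ =ᶠ[𝓝 z] loc h hz hθ := by
    filter_upwards [h1, hr, h.isOpen.mem_nhds hz] with w h1 h2 h3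
    exact eq_loc h hz hθ h3 h2 h1
  exact (differentiableAt_loc h hz hθ).congr_of_eventuallyEq h2

/-- The total space. -/
abbrev Tot (S : Set ℂ) (P : ℂ → ℂ[X]) : Type := {p : S × ℂ // (P p.1).eval p.2 = 0}

/-- The projection. -/
def proj (S : Set ℂ) (P : ℂ → ℂ[X]) (p : Tot S P) : S := p.1.1

theorem continuous_proj : Continuous (proj S P) := continuous_fst.comp continuous_subtype_val

theorem continuous_val' (h : SimpleFamily S P d) :
    Continuous (fun p : S × ℂ => (P p.1).eval p.2) := by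
  rw [continuous_iff_continuousAt]
  rintro ⟨z, θ⟩
  have h1 : ContinuousAt (val P d) ((z : ℂ), θ) := (h.contDiffAt_val z.2 θ).continuousAt
  have h2 : ContinuousAt (fun p : S × ℂ => ((p.1 : ℂ), p.2)) (z, θ) := by fun_prop
  have h3 : ContinuousAt (fun p : S × ℂ => val P d ((p.1 : ℂ), p.2)) (z, θ) :=
    ContinuousAt.comp (g := val P d) h1 h2
  have h4 : (fun p : S × ℂ => (P p.1).eval p.2) = fun p : S × ℂ => val P d ((p.1 : ℂ), p.2) := by
    ext p
    exact (h.val_eq p.1.2 p.2).symm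
  rw [h4]
  exact h3

theorem isLocalHomeomorph_proj (h : SimpleFamily S P d) : IsLocalHomeomorph (proj S P) := by
  have hopen : IsOpenMap (proj S P) := by
    refine IsOpenMap.of_nhds_le fun e => ?_
    obtain ⟨⟨z, θ⟩, hθ⟩ := e
    intro W hW
    rw [mem_map] at hW
    have hθ' : (P (z : ℂ)).eval θ = 0 := hθ
    rw [nhds_subtype_eq_comap] at hW
    obtain ⟨U, hU, hUW⟩ := hW
    have hc : ContinuousAt (fun w : S => (w, loc h z.2 hθ' w)) z := by
      refine continuousAt_id.prodMk ?_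
      exact ContinuousAt.comp (g := loc h z.2 hθ') (differentiableAt_loc h z.2 hθ').continuousAt
        continuous_subtype_val.continuousAt
    have hc2 : ∀ᶠ w : S in 𝓝 z, (w, loc h z.2 hθ' w) ∈ U := by
      apply hc
      have e0 : ((fun w : S => (w, loc h z.2 hθ' w)) z) = (z, θ) := by
        show (z, loc h z.2 hθ' z) = (z, θ)
        rw [loc_root]
      rw [e0]
      exact hU
    have h3 : ∀ᶠ w : S in 𝓝 z, (P (w : ℂ)).eval (loc h z.2 hθ' w) = 0 := by
      have := (eventually_loc h z.2 hθ').mono fun w hw => hw.2.2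
      exact continuous_subtype_val.continuousAt.eventually this
    filter_upwards [hc2, h3] with w hw1 hw2
    exact hUW (show (⟨(w, loc h z.2 hθ' w), hw2⟩ : Tot S P) ∈ _ from hw1)
  rw [isLocalHomeomorph_iff_isOpenEmbedding_restrict]
  rintro ⟨⟨z, θ⟩, hθ⟩
  have hθ' : (P (z : ℂ)).eval θ = 0 := hθ
  let g : Tot S P → ℂ × ℂ := fun p => ((p.1.1 : ℂ), p.1.2)
  have hg : Continuous g := by
    have : Continuous (fun p : Tot S P => p.1) := continuous_subtype_val
    fun_prop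
  have hUo : IsOpen (g ⁻¹' (psi h z.2 hθ').source) := (psi h z.2 hθ').open_source.preimage hg
  refine ⟨g ⁻¹' (psi h z.2 hθ').source, hUo.mem_nhds (mem_psi_source h z.2 hθ'), ?_⟩
  refine IsOpenEmbedding.of_continuous_injective_isOpenMap
    (continuous_proj.comp continuous_subtype_val) ?_ (hopen.comp hUo.isOpenMap_subtype_val)
  rintro ⟨⟨⟨w, η⟩, hη⟩, h1⟩ ⟨⟨⟨w', η'⟩, hη'⟩, h2⟩ heq
  have hw : w = w' := heq
  subst hw
  have e1 : η = loc h z.2 hθ' w := eq_loc h z.2 hθ' w.2 hη h1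
  have e2 : η' = loc h z.2 hθ' w := eq_loc h z.2 hθ' w.2 hη' h2
  have e3 : η = η' := e1.trans e2.symm
  subst e3
  rfl

/-- The root bound. -/
noncomputable def bd (P : ℂ → ℂ[X]) (d : ℕ) (z : ℂ) : ℝ :=
  1 + ∑ j ∈ Finset.range d, ‖(P z).coeff j‖ / ‖(P z).coeff d‖

theorem SimpleFamily.coeff_ne (h : SimpleFamily S P d) {z : ℂ} (hz : z ∈ S) :
    (P z).coeff d ≠ 0 := by
  rw [← h.deg z hz]
  exact leadingCoeff_ne_zero.2 (h.ne z hz)

theorem norm_root_le (h : SimpleFamily S P d) {z : ℂ} (hz : z ∈ S) {θ : ℂ}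
    (hθ : (P z).eval θ = 0) : ‖θ‖ ≤ bd P d z := by
  have hlead : 0 < ‖(P z).coeff d‖ := norm_pos_iff.2 (h.coeff_ne hz)
  have hs0 : 0 ≤ ∑ j ∈ Finset.range d, ‖(P z).coeff j‖ / ‖(P z).coeff d‖ :=
    Finset.sum_nonneg fun j _ => by positivity
  by_contra hcon
  push Not at hcon
  have h1 : 1 < ‖θ‖ := by
    unfold bd at hcon
    linarith
  have h2 : val P d (z, θ) = 0 := by rw [h.val_eq hz, hθ]
  unfold val at h2
  rw [Finset.sum_range_succ] at h2
  have h3 : ‖(P z).coeff d‖ * ‖θ‖ ^ d ≤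
      (∑ j ∈ Finset.range d, ‖(P z).coeff j‖ / ‖(P z).coeff d‖) *
        (‖(P z).coeff d‖ * ‖θ‖ ^ (d - 1)) := by
    have h4 : (P z).coeff d * θ ^ d = -∑ j ∈ Finset.range d, (P z).coeff j * θ ^ j := by
      linear_combination h2
    calc ‖(P z).coeff d‖ * ‖θ‖ ^ d = ‖(P z).coeff d * θ ^ d‖ := by rw [norm_mul, norm_pow]
      _ = ‖∑ j ∈ Finset.range d, (P z).coeff j * θ ^ j‖ := by rw [h4, norm_neg]
      _ ≤ ∑ j ∈ Finset.range d, ‖(P z).coeff j * θ ^ j‖ := norm_sum_le _ _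
      _ ≤ ∑ j ∈ Finset.range d, ‖(P z).coeff j‖ * ‖θ‖ ^ (d - 1) := by
        refine Finset.sum_le_sum fun j hj => ?_
        rw [norm_mul, norm_pow]
        refine mul_le_mul_of_nonneg_left ?_ (norm_nonneg _)
        exact pow_le_pow_right₀ h1.le (by have := Finset.mem_range.1 hj; omega)
      _ = _ := by
        rw [Finset.sum_mul]
        refine Finset.sum_congr rfl fun j _ => ?_
        field_simp
  rcases Nat.eq_zero_or_pos d with hd | hd
  · subst hd
    simp only [Finset.range_zero, Finset.sum_empty, zero_mul] at h3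
    have : 0 < ‖(P z).coeff 0‖ * ‖θ‖ ^ 0 := by simpa using hlead
    linarith
  · have h5 : ‖θ‖ ^ d = ‖θ‖ * ‖θ‖ ^ (d - 1) := by
      rw [← pow_succ']
      congr 1
      omega
    rw [h5] at h3
    have h6 : 0 < ‖(P z).coeff d‖ * ‖θ‖ ^ (d - 1) := by positivity
    have h7 : ‖θ‖ * (‖(P z).coeff d‖ * ‖θ‖ ^ (d - 1)) ≤
      (∑ j ∈ Finset.range d, ‖(P z).coeff j‖ / ‖(P z).coeff d‖) *
        (‖(P z).coeff d‖ * ‖θ‖ ^ (d - 1)) := by linarith
    have h8 := le_of_mul_le_mul_right h7 h6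
    unfold bd at hcon
    linarith

theorem continuousOn_bd (h : SimpleFamily S P d) : ContinuousOn (bd P d) S := by
  unfold bd
  refine ContinuousOn.add continuousOn_const (continuousOn_finsetSum _ fun j _ => ?_)
  exact ((h.coef j).continuousOn.norm).div (h.coef d).continuousOn.norm
    fun z hz => norm_ne_zero_iff.2 (h.coeff_ne hz)

theorem isClosedMap_proj (h : SimpleFamily S P d) : IsClosedMap (proj S P) := by
  have : LocallyCompactSpace S := h.isOpen.locallyCompactSpace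
  have hp : IsProperMap (proj S P) := by
    rw [isProperMap_iff_isCompact_preimage]
    refine ⟨continuous_proj, fun {K} hK => ?_⟩
    have hK' : IsCompact ((↑) '' K : Set ℂ) := hK.image continuous_subtype_val
    have hKS : ((↑) '' K : Set ℂ) ⊆ S := by
      rintro _ ⟨z, _, rfl⟩
      exact z.2
    obtain ⟨R, hR⟩ := (hK'.bddAbove_image ((continuousOn_bd h).mono hKS))
    have hcl : IsClosed {p : S × ℂ | (P p.1).eval p.2 = 0} :=
      isClosed_singleton.preimage (continuous_val' h)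
    have hemb : IsClosedEmbedding (Subtype.val : {p : S × ℂ // (P p.1).eval p.2 = 0} → S × ℂ) :=
      hcl.isClosedEmbedding_subtypeVal
    have hc : IsCompact (K ×ˢ closedBall (0 : ℂ) R) := hK.prod (isCompact_closedBall 0 R)
    have h1 := hemb.isCompact_preimage hc
    have h2 : proj S P ⁻¹' K =
        (Subtype.val : {p : S × ℂ // (P p.1).eval p.2 = 0} → S × ℂ) ⁻¹'
          (K ×ˢ closedBall (0 : ℂ) R) := by
      ext ⟨⟨z, θ⟩, hθ⟩
      constructor
      · intro hz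
        have hz' : z ∈ K := hz
        refine ⟨hz', ?_⟩
        rw [mem_closedBall_zero_iff]
        exact (norm_root_le h z.2 hθ).trans (hR ⟨z, ⟨z, hz', rfl⟩, rfl⟩)
      · intro hz
        exact hz.1
    rw [h2]
    exact h1
  exact hp.isClosedMap

theorem isCoveringMap_proj (h : SimpleFamily S P d) : IsCoveringMap (proj S P) := by
  rw [isCoveringMap_iff_isCoveringMapOn_univ]
  refine (isClosedMap_proj h).isCoveringMapOn_of_isLocalHomeomorphOn (fun z _ => ?_) ?_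
  · have h1 : {θ : ℂ | (P (z : ℂ)).eval θ = 0}.Finite := by
      have := Polynomial.finite_setOfPred_isRoot (h.ne z z.2)
      exact this
    refine Set.Finite.of_finite_image (f := fun p : Tot S P => p.1.2) (h1.subset ?_) ?_
    · rintro _ ⟨⟨⟨w, η⟩, hη⟩, hw, rfl⟩
      have : w = z := hw
      subst this
      exact hη
    · rintro ⟨⟨w, η⟩, hη⟩ hw ⟨⟨w', η'⟩, hη'⟩ hw' heq
      have e1 : w = z := hw
      have e2 : w' = z := hw'
      have e3 : η = η' := heq
      subst e1 e2 e3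
      rfl
  · rw [preimage_univ, ← isLocalHomeomorph_iff_isLocalHomeomorphOn_univ]
    exact isLocalHomeomorph_proj h

/-- **Holomorphic root over a convex open set.** -/
theorem exists_root_convex (h : SimpleFamily S P d) (hS : Convex ℝ S) {z₀ θ₀ : ℂ} (hz₀ : z₀ ∈ S)
    (hθ₀ : (P z₀).eval θ₀ = 0) :
    ∃ θ : ℂ → ℂ, DifferentiableOn ℂ θ S ∧ (∀ z ∈ S, (P z).eval (θ z) = 0) ∧ θ z₀ = θ₀ := by
  classical
  have : ContractibleSpace S := hS.contractibleSpace ⟨z₀, hz₀⟩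
  have : LocallyPathConnectedSpace S := h.isOpen.locallyPathConnectedSpace
  obtain ⟨F, ⟨hF0, hF1⟩, -⟩ := (isCoveringMap_proj h).existsUnique_continuousMap_lifts
    (ContinuousMap.id S) ⟨z₀, hz₀⟩ (⟨(⟨z₀, hz₀⟩, θ₀), hθ₀⟩ : Tot S P) rfl
  have hF2 : ∀ z : S, (F z).1.1 = z := fun z => congrFun hF1 z
  let θ : ℂ → ℂ := fun z => if hz : z ∈ S then (F ⟨z, hz⟩).1.2 else 0
  have hθ : ∀ z : S, θ z = (F z).1.2 := fun z => by simp [θ]
  have hroot : ∀ z ∈ S, (P z).eval (θ z) = 0 := by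
    intro z hz
    have h1 := (F ⟨z, hz⟩).2
    rw [hF2] at h1
    rw [hθ ⟨z, hz⟩]
    exact h1
  refine ⟨θ, ?_, hroot, ?_⟩
  · intro z hz
    refine (differentiableAt_of_continuousAt h hz ?_ ?_).differentiableWithinAt
    · have h1 : Continuous (fun z : S => θ z) := by
        have : (fun z : S => θ z) = fun z : S => (F z).1.2 := funext hθ
        rw [this]
        exact continuous_snd.comp (continuous_subtype_val.comp F.continuous)
      have h2 : ContinuousOn θ S := continuousOn_iff_continuous_domRestrict.2 h1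
      exact h2.continuousAt (h.isOpen.mem_nhds hz)
    · filter_upwards [h.isOpen.mem_nhds hz] with w hw using hroot w hw
  · rw [hθ ⟨z₀, hz₀⟩, hF0]

/-- Uniqueness of continuous roots. -/
theorem root_unique (h : SimpleFamily S P d) (hS : IsPreconnected S) {θ η : ℂ → ℂ}
    (hθ : ContinuousOn θ S) (hη : ContinuousOn η S) (hθr : ∀ z ∈ S, (P z).eval (θ z) = 0)
    (hηr : ∀ z ∈ S, (P z).eval (η z) = 0) {z₀ : ℂ} (hz₀ : z₀ ∈ S) (h0 : θ z₀ = η z₀) :
    ∀ z ∈ S, θ z = η z := by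
  have : PreconnectedSpace S := isPreconnected_iff_preconnectedSpace.1 hS
  let g₁ : S → Tot S P := fun z => ⟨(z, θ z), hθr z z.2⟩
  let g₂ : S → Tot S P := fun z => ⟨(z, η z), hηr z z.2⟩
  have c₁ : Continuous g₁ :=
    Continuous.subtype_mk (continuous_id.prodMk (continuousOn_iff_continuous_domRestrict.1 hθ)) _
  have c₂ : Continuous g₂ :=
    Continuous.subtype_mk (continuous_id.prodMk (continuousOn_iff_continuous_domRestrict.1 hη)) _
  have h1 : g₁ = g₂ := by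
    refine (isCoveringMap_proj h).eq_of_comp_eq c₁ c₂ rfl ⟨z₀, hz₀⟩ ?_
    refine Subtype.ext ?_
    exact Prod.ext rfl h0
  intro z hz
  have h2 : g₁ ⟨z, hz⟩ = g₂ ⟨z, hz⟩ := by rw [h1]
  exact congrArg (fun p : Tot S P => p.1.2) h2

end Convex

end Pool.Agent.Lib_MP_1858fb_m
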